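import Mathlib
import Pool.Agent.L7h48.RT.Stm2

/-!
Subsequences along which the exceptional densities converge (part SUB).
-/

set_option autoImplicit false

namespace Pool.Agent.L7h94.RT

open Filter Topology Pool.Agent.L7h48.RT
open scoped Classical

/-- a finite set as a tuple in a bounded interval -/
lemma tuple (A : Finset ℝ) (K m : ℕ) (hA : A.card ≤ K) :
    ∃ e : Fin K → Set.Icc (-1 : ℝ) (m + 1), ∀ (x d : ℝ), 0 < x → x ≤ m →
      (∀ i, d ≤ |x - (e i : ℝ)|) → ∀ s ∈ A, d ≤ |x - s| := by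
  have hm0 : (0 : ℝ) ≤ m := Nat.cast_nonneg m
  have hm : (-1 : ℝ) ≤ m + 1 := by linarith
  refine ⟨fun i => Set.projIcc (-1 : ℝ) (m + 1) hm (A.toList.getD i 0), ?_⟩
  intro x d hx hxm h s hs
  obtain ⟨i, hi, hsi⟩ := List.mem_iff_getElem.1 (Finset.mem_toList.2 hs)
  have hiK : i < K := by
    rw [Finset.length_toList] at hi
    omega
  have h1 := h ⟨i, hiK⟩
  have h2 : A.toList.getD i 0 = s := by
    rw [List.getD_eq_getElem _ _ hi, hsi]
  simp only [h2, Set.coe_projIcc] at h1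
  refine h1.trans ?_
  rcases le_total s (m + 1) with h3 | h3
  · rcases le_total (-1) s with h4 | h4
    · rw [min_eq_right h3, max_eq_right h4]
    · rw [min_eq_right h3, max_eq_left h4, abs_of_nonneg (by linarith), abs_of_nonneg (by linarith)]
      linarith
  · rw [min_eq_left h3, max_eq_right hm, abs_of_nonpos (by linarith), abs_of_nonpos (by linarith)]
    linarith

theorem s_SUB : S_SUB := by
  intro Bad hmono hB φ hφ
  have h1 : ∀ m : ℕ, ∃ K : ℕ, ∀ d : ℝ, 0 < d → ∀ᶠ n : ℕ in atTop,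
      ∃ A : Finset ℝ, A.card ≤ K ∧ ∀ x, 0 < x → x ≤ ((m + 1 : ℕ) : ℝ) → (∀ s ∈ A, d ≤ |x - s|) →
        ¬ Bad (1 / ((m + 1 : ℕ) : ℝ)) n x := fun m => hB _ _ (by positivity) (by positivity)
  choose K hK using h1
  -- the tuples
  let Q : ℕ → ℕ → ℕ → Prop := fun m k n => ∃ e : Fin (K m) → Set.Icc (-1 : ℝ) ((m + 1 : ℕ) + 1),
    ∀ x, 0 < x → x ≤ ((m + 1 : ℕ) : ℝ) → (∀ i, 1 / ((k : ℝ) + 1) ≤ |x - (e i : ℝ)|) →
      ¬ Bad (1 / ((m + 1 : ℕ) : ℝ)) n x
  have hQ : ∀ m k, ∀ᶠ n in atTop, Q m k n := by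
    intro m k
    filter_upwards [hK m (1 / ((k : ℝ) + 1)) (by positivity)] with n hn
    obtain ⟨A, hA, h⟩ := hn
    obtain ⟨e, he⟩ := tuple A (K m) (m + 1) hA
    exact ⟨e, fun x hx hxm hi => h x hx hxm (he x _ hx hxm hi)⟩
  let kk : ℕ → ℕ → ℕ := fun m n => Nat.findGreatest (fun k => Q m k n) n
  have hkk : ∀ m k, ∀ᶠ n in atTop, k ≤ kk m n ∧ Q m (kk m n) n := by
    intro m k
    filter_upwards [hQ m k, eventually_ge_atTop k] with n hn hk
    exact ⟨Nat.le_findGreatest hk hn, Nat.findGreatest_spec (P := fun k => Q m k n) hk hn⟩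
  have hkt : ∀ m, Tendsto (kk m) atTop atTop := fun m =>
    tendsto_atTop.2 fun k => (hkk m k).mono fun n h => h.1
  have h2 : ∀ m n : ℕ, ∃ e : Fin (K m) → Set.Icc (-1 : ℝ) ((m + 1 : ℕ) + 1), Q m (kk m n) n →
      ∀ x, 0 < x → x ≤ ((m + 1 : ℕ) : ℝ) → (∀ i, 1 / ((kk m n : ℝ) + 1) ≤ |x - (e i : ℝ)|) →
      ¬ Bad (1 / ((m + 1 : ℕ) : ℝ)) n x := by
    intro m n
    by_cases h : Q m (kk m n) n
    · obtain ⟨e, he⟩ := h
      exact ⟨e, fun _ => he⟩
    · exact ⟨fun _ => ⟨-1, le_rfl, by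
        have : (0 : ℝ) ≤ ((m + 1 : ℕ) : ℝ) := Nat.cast_nonneg _
        linarith⟩, fun h' => absurd h' h⟩
  choose s hs using h2
  let S : ℕ → (∀ m : ℕ, Fin (K m) → Set.Icc (-1 : ℝ) ((m + 1 : ℕ) + 1)) := fun n m => s m n
  obtain ⟨a, ψ, hψ, hlim⟩ := SeqCompactSpace.tendsto_subseq (fun j => S (φ j))
  refine ⟨ψ, hψ, ⋃ m : ℕ, Set.range (fun i : Fin (K m) => ((a m i : ℝ))),
    Set.countable_iUnion fun m => Set.countable_range _, ?_⟩
  intro x hx hxC δ hδ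
  obtain ⟨m, hm⟩ := exists_nat_ge (max x (1 / δ))
  have hxm : x ≤ ((m + 1 : ℕ) : ℝ) := by
    push_cast
    linarith [le_max_left x (1 / δ)]
  have hδm : 1 / ((m + 1 : ℕ) : ℝ) ≤ δ := by
    rw [div_le_iff₀ (by positivity)]
    have h3 : 1 / δ ≤ m := (le_max_right _ _).trans hm
    rw [div_le_iff₀ hδ] at h3
    push_cast
    nlinarith
  have hcomp : Tendsto (fun j => φ (ψ j)) atTop atTop := hφ.tendsto_atTop.comp hψ.tendsto_atTop
  have hev : ∀ i : Fin (K m), ∀ᶠ j in atTop,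
      1 / ((kk m (φ (ψ j)) : ℝ) + 1) ≤ |x - (s m (φ (ψ j)) i : ℝ)| := by
    intro i
    have hne : x ≠ (a m i : ℝ) := by
      intro h
      apply hxC
      rw [Set.mem_iUnion]
      exact ⟨m, i, h.symm⟩
    have hL : Tendsto (fun j => 1 / ((kk m (φ (ψ j)) : ℝ) + 1)) atTop (𝓝 0) :=
      tendsto_one_div_add_atTop_nhds_zero_nat.comp ((hkt m).comp hcomp)
    have hc : Tendsto (fun j => (s m (φ (ψ j)) i : ℝ)) atTop (𝓝 (a m i : ℝ)) := by
      have e1 := (tendsto_pi_nhds.1 hlim) m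
      have e2 := (tendsto_pi_nhds.1 e1) i
      exact (continuous_subtype_val.tendsto _).comp e2
    have hR : Tendsto (fun j => |x - (s m (φ (ψ j)) i : ℝ)|) atTop (𝓝 |x - (a m i : ℝ)|) :=
      (tendsto_const_nhds.sub hc).abs
    exact (hL.eventually_lt hR (abs_pos.2 (sub_ne_zero.2 hne))).mono fun j h => h.le
  filter_upwards [eventually_all.2 hev, hcomp.eventually (hkk m 0)] with j hj hk hbad
  exact hs m (φ (ψ j)) hk.2 x hx hxm hj (hmono _ _ _ _ hδm hbad)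

end Pool.Agent.L7h94.RT
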