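import Mathlib
import Pool.Agent.L7h48.RT.Stm

/-!
Deleting an edge changes the excess of the components by at most `l` (part CUT).
-/

namespace Pool.Agent.L7h94.RT

open Pool.Agent.L7h48.RT
open scoped Classical

variable {n : ℕ}

lemma conn_cases (H : SimpleGraph (Fin n)) (a b : Fin n) :
    ∀ {v w : Fin n}, H.Walk v w →
      ((H.deleteEdges {s(a, b)}).Reachable v w ∨
      ((H.deleteEdges {s(a, b)}).Reachable v a ∧ (H.deleteEdges {s(a, b)}).Reachable b w) ∨
      ((H.deleteEdges {s(a, b)}).Reachable v b ∧ (H.deleteEdges {s(a, b)}).Reachable a w)) := by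
  intro v w p
  induction p with
  | nil => exact Or.inl (SimpleGraph.Reachable.refl _)
  | @cons v u w h p ih =>
    by_cases he : s(v, u) = s(a, b)
    · rw [Sym2.eq_iff] at he
      rcases he with ⟨rfl, rfl⟩ | ⟨rfl, rfl⟩
      · rcases ih with h1 | ⟨h1, h2⟩ | ⟨h1, h2⟩
        · exact Or.inr (Or.inl ⟨SimpleGraph.Reachable.refl _, h1⟩)
        · exact Or.inl (h1.symm.trans h2)
        · exact Or.inl h2
      · rcases ih with h1 | ⟨h1, h2⟩ | ⟨h1, h2⟩
        · exact Or.inr (Or.inr ⟨SimpleGraph.Reachable.refl _, h1⟩)
        · exact Or.inl h2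
        · exact Or.inl (h1.symm.trans h2)
    · have h' : (H.deleteEdges {s(a, b)}).Adj v u := by
        rw [SimpleGraph.deleteEdges_adj]
        exact ⟨h, by simpa using he⟩
      have hr := h'.reachable
      rcases ih with h1 | ⟨h1, h2⟩ | ⟨h1, h2⟩
      · exact Or.inl (hr.trans h1)
      · exact Or.inr (Or.inl ⟨hr.trans h1, h2⟩)
      · exact Or.inr (Or.inr ⟨hr.trans h1, h2⟩)

theorem s_CUT : S_CUT := by
  intro n l H e hl
  induction e using Sym2.ind with
  | _ a b =>
  by_cases hab : H.Adj a b
  swap
  · have : H.deleteEdges {s(a, b)} = H := by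
      rw [SimpleGraph.deleteEdges_eq_self]
      rw [Set.disjoint_singleton_right]
      simpa using hab
    rw [this]; linarith
  set H' := H.deleteEdges {s(a, b)} with hH'
  have hle : H' ≤ H := SimpleGraph.deleteEdges_le _
  let π : H'.ConnectedComponent → H.ConnectedComponent :=
    SimpleGraph.ConnectedComponent.map (SimpleGraph.Hom.ofLE hle)
  have hπ : ∀ v, π (H'.connectedComponentMk v) = H.connectedComponentMk v := fun v => rfl
  set φ' : H'.ConnectedComponent → ℝ := fun C => max ((C.supp.ncard : ℝ) - l) 0 with hφ'
  set φ : H.ConnectedComponent → ℝ := fun C => max ((C.supp.ncard : ℝ) - l) 0 with hφ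
  have h0 : ∀ C, 0 ≤ φ' C := fun C => le_max_right _ _
  have e1 : Phi l H' = ∑ C' ∈ Finset.univ.image H'.connectedComponentMk, φ' C' := rfl
  have e2 : Phi l H = ∑ C ∈ Finset.univ.image H.connectedComponentMk, φ C := rfl
  have hmap : ∀ C' ∈ Finset.univ.image H'.connectedComponentMk,
      π C' ∈ Finset.univ.image H.connectedComponentMk := by
    intro C' hC'
    obtain ⟨v, -, rfl⟩ := Finset.mem_image.mp hC'
    rw [hπ]
    exact Finset.mem_image_of_mem _ (Finset.mem_univ _)
  have hfib := Finset.sum_fiberwise_of_maps_to hmap φ'
  rw [e1, e2, ← hfib]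
  -- the bound for each fibre
  have hother : ∀ C ∈ Finset.univ.image H.connectedComponentMk, C ≠ H.connectedComponentMk a →
      φ C ≤ ∑ C' ∈ Finset.univ.image H'.connectedComponentMk with π C' = C, φ' C' := by
    intro C hC hCa
    obtain ⟨v, -, rfl⟩ := Finset.mem_image.mp hC
    have hmem : H'.connectedComponentMk v ∈ (Finset.univ.image H'.connectedComponentMk).filter
        (fun C' => π C' = H.connectedComponentMk v) := by
      rw [Finset.mem_filter]
      exact ⟨Finset.mem_image_of_mem _ (Finset.mem_univ _), hπ v⟩
    have hs := Finset.single_le_sum (fun C _ => h0 C) hmem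
    refine le_trans ?_ hs
    have hsupp : (H.connectedComponentMk v).supp ⊆ (H'.connectedComponentMk v).supp := by
      intro w hw
      rw [SimpleGraph.ConnectedComponent.mem_supp_iff, SimpleGraph.ConnectedComponent.eq] at hw ⊢
      obtain ⟨p⟩ := hw
      rcases conn_cases H a b p with h1 | ⟨h1, h2⟩ | ⟨h1, h2⟩
      · exact h1
      · exfalso; apply hCa
        rw [SimpleGraph.ConnectedComponent.eq]
        exact (((h2.mono hle).symm.trans hab.reachable.symm)).trans (SimpleGraph.Reachable.refl _) |>.symm.symm
      · exfalso; apply hCa
        rw [SimpleGraph.ConnectedComponent.eq]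
        exact (h2.mono hle).symm
    have hc : ((H.connectedComponentMk v).supp.ncard : ℝ) ≤ (H'.connectedComponentMk v).supp.ncard := by
      exact_mod_cast Set.ncard_le_ncard hsupp (Set.toFinite _)
    exact max_le_max (by linarith) le_rfl
  have hmain : φ (H.connectedComponentMk a) - l ≤
      ∑ C' ∈ Finset.univ.image H'.connectedComponentMk with π C' = H.connectedComponentMk a, φ' C' := by
    have hA : H'.connectedComponentMk a ∈ (Finset.univ.image H'.connectedComponentMk).filter
        (fun C' => π C' = H.connectedComponentMk a) := by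
      rw [Finset.mem_filter]
      exact ⟨Finset.mem_image_of_mem _ (Finset.mem_univ _), hπ a⟩
    have hB : H'.connectedComponentMk b ∈ (Finset.univ.image H'.connectedComponentMk).filter
        (fun C' => π C' = H.connectedComponentMk a) := by
      rw [Finset.mem_filter]
      refine ⟨Finset.mem_image_of_mem _ (Finset.mem_univ _), ?_⟩
      rw [hπ, SimpleGraph.ConnectedComponent.eq]
      exact hab.reachable.symm
    have hsupp : (H.connectedComponentMk a).supp ⊆
        (H'.connectedComponentMk a).supp ∪ (H'.connectedComponentMk b).supp := by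
      intro w hw
      rw [SimpleGraph.ConnectedComponent.mem_supp_iff, SimpleGraph.ConnectedComponent.eq] at hw
      obtain ⟨p⟩ := hw.symm
      rcases conn_cases H a b p with h1 | ⟨h1, h2⟩ | ⟨h1, h2⟩
      · left
        rw [SimpleGraph.ConnectedComponent.mem_supp_iff, SimpleGraph.ConnectedComponent.eq]
        exact h1.symm
      · right
        rw [SimpleGraph.ConnectedComponent.mem_supp_iff, SimpleGraph.ConnectedComponent.eq]
        exact h2.symm
      · left
        rw [SimpleGraph.ConnectedComponent.mem_supp_iff, SimpleGraph.ConnectedComponent.eq]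
        exact h2.symm
    by_cases hAB : H'.connectedComponentMk a = H'.connectedComponentMk b
    · have hs := Finset.single_le_sum (fun C _ => h0 C) hA
      have hc : ((H.connectedComponentMk a).supp.ncard : ℝ) ≤
          (H'.connectedComponentMk a).supp.ncard := by
        rw [← hAB, Set.union_self] at hsupp
        exact_mod_cast Set.ncard_le_ncard hsupp (Set.toFinite _)
      have : φ (H.connectedComponentMk a) ≤ φ' (H'.connectedComponentMk a) :=
        max_le_max (by linarith) le_rfl
      linarith
    · have hs : φ' (H'.connectedComponentMk a) + φ' (H'.connectedComponentMk b) ≤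
          ∑ C' ∈ Finset.univ.image H'.connectedComponentMk with π C' = H.connectedComponentMk a,
            φ' C' := by
        rw [← Finset.sum_pair hAB]
        apply Finset.sum_le_sum_of_subset_of_nonneg
        · intro C hC
          rw [Finset.mem_insert, Finset.mem_singleton] at hC
          rcases hC with rfl | rfl
          · exact hA
          · exact hB
        · intro C _ _
          exact h0 C
      have hc : ((H.connectedComponentMk a).supp.ncard : ℝ) ≤
          (H'.connectedComponentMk a).supp.ncard + (H'.connectedComponentMk b).supp.ncard := by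
        exact_mod_cast (Set.ncard_le_ncard hsupp (Set.toFinite _)).trans (Set.ncard_union_le _ _)
      have k1 : ((H'.connectedComponentMk a).supp.ncard : ℝ) - l ≤ φ' (H'.connectedComponentMk a) :=
        le_max_left _ _
      have k2 : ((H'.connectedComponentMk b).supp.ncard : ℝ) - l ≤ φ' (H'.connectedComponentMk b) :=
        le_max_left _ _
      have k3 := h0 (H'.connectedComponentMk a)
      have k4 := h0 (H'.connectedComponentMk b)
      have k5 : φ (H.connectedComponentMk a) ≤
          φ' (H'.connectedComponentMk a) + φ' (H'.connectedComponentMk b) + l := by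
        apply max_le <;> linarith
      linarith
  have ha : H.connectedComponentMk a ∈ Finset.univ.image H.connectedComponentMk :=
    Finset.mem_image_of_mem _ (Finset.mem_univ _)
  rw [← Finset.add_sum_erase _ _ ha, ← Finset.add_sum_erase (Finset.univ.image H.connectedComponentMk)
    (fun C => ∑ C' ∈ Finset.univ.image H'.connectedComponentMk with π C' = C, φ' C') ha]
  have hrest : ∑ C ∈ (Finset.univ.image H.connectedComponentMk).erase (H.connectedComponentMk a), φ C ≤
      ∑ C ∈ (Finset.univ.image H.connectedComponentMk).erase (H.connectedComponentMk a),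
        ∑ C' ∈ Finset.univ.image H'.connectedComponentMk with π C' = C, φ' C' := by
    apply Finset.sum_le_sum
    intro C hC
    exact hother C (Finset.mem_of_mem_erase hC) (Finset.ne_of_mem_erase hC)
  linarith

end Pool.Agent.L7h94.RT
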